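import Pool.Agent.Helper61.QS.GoalsH

/-!
# Project QS, packet H-OD3: continuity of the solution in all variables
-/

set_option autoImplicit false

open Set Filter Topology

namespace Pool.Agent.Helper57.QS

open Pool.Agent.Helper61.QS

theorem unit_norm_le {n : ℕ} {u : En n} (hu : u ∈ unitary (En n)) : ‖u‖ ≤ 1 :=
  UC.norm_le (S := ∅) ⟨hu, fun s hs => absurd hs (notMem_empty s)⟩

theorem od3_bound {n : ℕ} (c c₀ U U₀ : ℝ → En n) (hc₀ : ∀ t, star (c₀ t) = -c₀ t)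
    (hU : ∀ t, U t ∈ unitary (En n)) (hU₀ : ∀ t, U₀ t ∈ unitary (En n))
    (h0 : U 0 = 1) (h1 : U₀ 0 = 1) (hd : ∀ t, HasDerivAt U (c t * U t) t)
    (hd₀ : ∀ t, HasDerivAt U₀ (c₀ t * U₀ t) t) (T η : ℝ) (hT : 0 < T) (hη : 0 ≤ η)
    (hb : ∀ t ∈ Icc (-T) T, ‖c t - c₀ t‖ ≤ η) (t : ℝ) (ht : t ∈ Icc (-T) T) :
    ‖U t - U₀ t‖ ≤ η * T := by
  have hZ : ∀ t, HasDerivAt (fun t => star (U₀ t) * U t) (star (U₀ t) * (c t - c₀ t) * U t) t := by
    intro t
    have e1 : HasDerivAt (fun t => star (U₀ t)) (star (c₀ t * U₀ t)) t := (hd₀ t).star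
    have e2 := e1.mul (hd t)
    have e3 : star (c₀ t * U₀ t) * U t + star (U₀ t) * (c t * U t) =
        star (U₀ t) * (c t - c₀ t) * U t := by
      rw [star_mul, hc₀ t]
      noncomm_ring
    rw [e3] at e2
    exact e2
  have hn : ∀ t ∈ Icc (-T) T, ‖star (U₀ t) * (c t - c₀ t) * U t‖ ≤ η := by
    intro t ht
    have n1 := unit_norm_le (Unitary.star_mem (hU₀ t))
    have n2 := unit_norm_le (hU t)
    calc _ ≤ ‖star (U₀ t) * (c t - c₀ t)‖ * ‖U t‖ := norm_mul_le _ _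
      _ ≤ (‖star (U₀ t)‖ * ‖c t - c₀ t‖) * ‖U t‖ := by
          gcongr
          exact norm_mul_le _ _
      _ ≤ (1 * η) * 1 := by
          gcongr
          exact hb t ht
      _ = η := by ring
  have hm := Convex.norm_image_sub_le_of_norm_hasDerivWithin_le
    (f := fun t => star (U₀ t) * U t) (f' := fun t => star (U₀ t) * (c t - c₀ t) * U t)
    (s := Icc (-T) T) (C := η) (x := 0) (y := t)
    (fun x _ => (hZ x).hasDerivWithinAt) hn (convex_Icc _ _) ⟨by linarith, hT.le⟩ ht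
  have e0 : star (U₀ 0) * U 0 = 1 := by rw [h0, h1, star_one, one_mul]
  rw [e0, sub_zero] at hm
  have hab : ‖t‖ ≤ T := by
    rw [Real.norm_eq_abs, abs_le]
    exact ht
  have e1 : U t - U₀ t = U₀ t * (star (U₀ t) * U t - 1) := by
    have e2 : U₀ t * star (U₀ t) = 1 := (Unitary.mem_iff.1 (hU₀ t)).2
    rw [mul_sub, ← mul_assoc, e2, one_mul, mul_one]
  rw [e1]
  have n3 := unit_norm_le (hU₀ t)
  calc _ ≤ ‖U₀ t‖ * ‖star (U₀ t) * U t - 1‖ := norm_mul_le _ _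
    _ ≤ 1 * (η * T) := by
        gcongr
        exact hm.trans (by gcongr)
    _ = _ := one_mul _

theorem goalOD3 (h2 : G_OD2) : G_OD3 := by
  intro Λ _ n c hc hsk U hU0 hUd
  have hun : ∀ l t, U l t ∈ unitary (En n) := fun l t =>
    (h2 n (fun t => c (l, t)) (U l) (fun t => hsk (l, t)) (hU0 l) (hUd l)).1 t
  rw [continuous_iff_continuousAt]
  rintro ⟨l₀, t₀⟩
  rw [Metric.continuousAt_iff']
  intro ε hε
  set T : ℝ := |t₀| + 1 with hT
  have hTp : 0 < T := by positivity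
  have e1 : ∀ᶠ l in 𝓝 l₀, ∀ t ∈ Icc (-T) T, ‖c (l, t) - c (l₀, t)‖ < ε / (4 * T) := by
    apply IsCompact.eventually_forall_of_forall_eventually isCompact_Icc
    intro y _
    have hcont : Continuous fun z : Λ × ℝ => ‖c (z.1, z.2) - c (l₀, z.2)‖ := by fun_prop
    have h3 : ‖c (l₀, y) - c (l₀, y)‖ < ε / (4 * T) := by
      rw [sub_self, norm_zero]
      positivity
    exact (hcont.continuousAt (x := (l₀, y))).eventually_lt continuousAt_const h3
  have e2 : ∀ᶠ t in 𝓝 t₀, ‖U l₀ t - U l₀ t₀‖ < ε / 2 := by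
    have h3 : ContinuousAt (fun t => ‖U l₀ t - U l₀ t₀‖) t₀ :=
      (((hUd l₀ t₀).continuousAt).sub continuousAt_const).norm
    refine h3.eventually_lt continuousAt_const ?_
    simp only [sub_self, norm_zero]
    positivity
  have e3 : ∀ᶠ t in 𝓝 t₀, t ∈ Icc (-T) T := by
    apply Icc_mem_nhds
    · have := neg_abs_le t₀
      rw [hT]; linarith
    · have := le_abs_self t₀
      rw [hT]; linarith
  have e4 : ∀ᶠ z : Λ × ℝ in 𝓝 (l₀, t₀), (∀ t ∈ Icc (-T) T, ‖c (z.1, t) - c (l₀, t)‖ < ε / (4 * T)) ∧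
      (‖U l₀ z.2 - U l₀ t₀‖ < ε / 2 ∧ z.2 ∈ Icc (-T) T) := by
    rw [nhds_prod_eq]
    exact e1.prod_mk (e2.and e3)
  filter_upwards [e4] with z hz
  obtain ⟨h3, h4, h5⟩ := hz
  have h6 := od3_bound (fun t => c (z.1, t)) (fun t => c (l₀, t)) (U z.1) (U l₀)
    (fun t => hsk (l₀, t)) (hun z.1) (hun l₀) (hU0 z.1) (hU0 l₀) (hUd z.1) (hUd l₀) T
    (ε / (4 * T)) hTp (by positivity) (fun t ht => (h3 t ht).le) z.2 h5
  have h7 : ε / (4 * T) * T = ε / 4 := by field_simp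
  rw [h7] at h6
  show dist (U z.1 z.2) (U l₀ t₀) < ε
  rw [dist_eq_norm]
  have h8 : U z.1 z.2 - U l₀ t₀ = (U z.1 z.2 - U l₀ z.2) + (U l₀ z.2 - U l₀ t₀) := by abel
  rw [h8]
  calc _ ≤ ‖U z.1 z.2 - U l₀ z.2‖ + ‖U l₀ z.2 - U l₀ t₀‖ := norm_add_le _ _
    _ < ε := by linarith

end Pool.Agent.Helper57.QS
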