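import Pool.Agent.Helper61.QS.GoalsH

/-!
# Project QS, packet A-D1: every point of `X` is a rotated polar point
-/

set_option autoImplicit false

open Set

namespace Pool.Agent.Helper57.QS

open Pool.Agent.Helper61.QS

theorem polar_form (w : ℂ) : ∃ α : ℝ, 0 ≤ α ∧ α ≤ 2 * Real.pi ∧
    w = Complex.exp (α * Complex.I) * (‖w‖ : ℂ) := by
  have h := Complex.norm_mul_exp_arg_mul_I w
  have hpi := Real.pi_pos
  rcases le_or_gt 0 w.arg with h0 | h0
  · refine ⟨w.arg, h0, by linarith [Complex.arg_le_pi w], ?_⟩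
    rw [mul_comm]
    exact h.symm
  · refine ⟨w.arg + 2 * Real.pi, by linarith [Complex.neg_pi_lt_arg w], by linarith, ?_⟩
    have h1 : Complex.exp (((w.arg + 2 * Real.pi : ℝ) : ℂ) * Complex.I) =
        Complex.exp (w.arg * Complex.I) := by
      push_cast
      rw [add_mul, Complex.exp_add, Complex.exp_two_pi_mul_I, mul_one]
    rw [h1, mul_comm]
    exact h.symm

theorem norm_expI (τ : ℝ) : ‖Complex.exp (τ * Complex.I)‖ = 1 := Complex.norm_exp_ofReal_mul_I τ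

theorem act_act (m : ℤ) (ζ ζ' : ℂ) (P : W) : act m ζ (act m ζ' P) = act m (ζ * ζ') P := by
  simp only [act, mul_zpow, mul_assoc]

theorem act_one (m : ℤ) (P : W) : act m 1 P = P := by
  simp only [act, one_zpow, one_mul]

theorem act_mem (m : ℤ) (ζ : ℂ) (hζ : ‖ζ‖ = 1) (P : W) (hP : P ∈ X) : act m ζ P ∈ X := by
  obtain ⟨h1, h2⟩ := hP
  refine ⟨?_, ?_⟩
  · simp only [act, norm_mul, hζ, one_mul]
    exact h1
  · simp only [act, norm_mul, norm_zpow, hζ, one_zpow, one_mul]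
    exact h2

theorem pol_mem (x : R4) : pol x ∈ X := by
  have e1 := norm_expI x.2.2.1
  have e2 := norm_expI x.2.2.2
  refine ⟨?_, ?_⟩
  · simp only [pol, norm_mul, e1, one_mul, Complex.norm_real, Real.norm_eq_abs, sq_abs]
    exact Real.cos_sq_add_sin_sq _
  · simp only [pol, norm_mul, e2, one_mul, Complex.norm_real, Real.norm_eq_abs, sq_abs]
    exact Real.sin_sq_add_cos_sq _

theorem goalD1 : G_D1 := by
  rintro m ⟨⟨a, b⟩, ⟨z, t⟩⟩ ⟨h1, h2⟩
  simp only at h1 h2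
  obtain ⟨τ, τ0, τ1, hτ⟩ := polar_form a
  set ζ := Complex.exp (τ * Complex.I) with hζ
  have hζn : ‖ζ‖ = 1 := norm_expI τ
  have hζ0 : ζ ≠ 0 := Complex.exp_ne_zero _
  obtain ⟨α, α0, α1, hα⟩ := polar_form (ζ⁻¹ * b)
  obtain ⟨β, β0, β1, hβ⟩ := polar_form ((ζ ^ m)⁻¹ * z)
  have hnb : ‖ζ⁻¹ * b‖ = ‖b‖ := by rw [norm_mul, norm_inv, hζn, inv_one, one_mul]
  have hnz : ‖(ζ ^ m)⁻¹ * z‖ = ‖z‖ := by
    rw [norm_mul, norm_inv, norm_zpow, hζn, one_zpow, inv_one, one_mul]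
  rw [hnb] at hα
  rw [hnz] at hβ
  have ha1 : ‖a‖ ≤ 1 := by nlinarith [norm_nonneg a, sq_nonneg ‖b‖]
  have ha0 := norm_nonneg a
  have ht1 : t ≤ 1 := by nlinarith [sq_nonneg ‖z‖, sq_nonneg (t - 1)]
  have ht2 : -1 ≤ t := by nlinarith [sq_nonneg ‖z‖, sq_nonneg (t + 1)]
  have hc1 : Real.cos (Real.arccos ‖a‖) = ‖a‖ := Real.cos_arccos (by linarith) ha1
  have hs1 : Real.sin (Real.arccos ‖a‖) = ‖b‖ := by
    rw [Real.sin_arccos]
    have : 1 - ‖a‖ ^ 2 = ‖b‖ ^ 2 := by linarith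
    rw [this, Real.sqrt_sq (norm_nonneg b)]
  have hc2 : Real.cos (Real.arccos t) = t := Real.cos_arccos ht2 ht1
  have hs2 : Real.sin (Real.arccos t) = ‖z‖ := by
    rw [Real.sin_arccos]
    have : 1 - t ^ 2 = ‖z‖ ^ 2 := by linarith
    rw [this, Real.sqrt_sq (norm_nonneg z)]
  refine ⟨τ, (Real.arccos ‖a‖, Real.arccos t, α, β), ⟨Real.arccos_nonneg _, ?_,
    Real.arccos_nonneg _, Real.arccos_le_pi _⟩, τ0, τ1, α0, α1, β0, β1, ?_⟩
  · exact Real.arccos_le_pi_div_two.2 ha0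
  · simp only [act, pol, hc1, hs1, hc2, hs2]
    rw [← hα, ← hβ, ← hζ, ← hτ, ← mul_assoc, ← mul_assoc, mul_inv_cancel₀ hζ0, one_mul,
      mul_inv_cancel₀ (zpow_ne_zero m hζ0), one_mul]

end Pool.Agent.Helper57.QS
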