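import Pool.Agent.Helper57.QS.D1

/-!
# Project QS, packets A-DES and A-FIN: descent from the box to `X`
-/

set_option autoImplicit false

open Set

namespace Pool.Agent.Helper57.QS

open Pool.Agent.Helper61.QS

theorem continuous_q (m : ℤ) :
    Continuous fun z : ℝ × R4 => act m (Complex.exp (z.1 * Complex.I)) (pol z.2) := by
  have h : (fun z : ℝ × R4 => act m (Complex.exp (z.1 * Complex.I)) (pol z.2)) =
      fun z : ℝ × R4 => ((Complex.exp (z.1 * Complex.I) * (pol z.2).1.1,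
        Complex.exp (z.1 * Complex.I) * (pol z.2).1.2),
        (Complex.exp (m * (z.1 * Complex.I)) * (pol z.2).2.1, (pol z.2).2.2)) := by
    funext z
    simp only [act, Complex.exp_int_mul]
  have hp : Continuous pol := by
    unfold pol
    fun_prop
  rw [h]
  fun_prop

theorem goalDES (hD1 : G_D1) (hD2 : G_D2) : G_DES := by
  intro m Y _ f hf hc
  choose! τ x hx hτ0 hτ1 ha0 ha1 hb0 hb1 hP using hD1 m
  have key : ∀ P ∈ X, ∀ y ∈ Box, ∀ ζ : ℂ, ‖ζ‖ = 1 → P = act m ζ (pol y) → f (x P) = f y := by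
    intro P hPX y hy ζ hζ h
    have hζ0 : Complex.exp (τ P * Complex.I) ≠ 0 := Complex.exp_ne_zero _
    have h1 := hP P hPX
    refine hD2 m Y f hf y hy (x P) (hx P hPX) ((Complex.exp (τ P * Complex.I))⁻¹ * ζ) ?_ ?_
    · rw [norm_mul, norm_inv, norm_expI, hζ, inv_one, one_mul]
    · have h5 := congrArg (act m (Complex.exp (τ P * Complex.I))⁻¹) h1
      rw [act_act, inv_mul_cancel₀ hζ0, act_one] at h5
      rw [← act_act, ← h]
      exact h5.symm
  refine ⟨fun P => f (x P), ?_, ?_, ?_⟩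
  · set K : Set (ℝ × R4) := Icc 0 (2 * Real.pi) ×ˢ
      (Icc 0 (Real.pi / 2) ×ˢ (Icc 0 Real.pi ×ˢ (Icc 0 (2 * Real.pi) ×ˢ Icc 0 (2 * Real.pi)))) with hK
    have hKc : IsCompact K := isCompact_Icc.prod (isCompact_Icc.prod (isCompact_Icc.prod
      (isCompact_Icc.prod isCompact_Icc)))
    have hKB : ∀ z ∈ K, z.2 ∈ Box := by
      rintro z ⟨-, h1, h2, -⟩
      exact ⟨h1.1, h1.2, h2.1, h2.2⟩
    have hfK : ContinuousOn (fun z : ℝ × R4 => f z.2) K := hc.comp continuousOn_snd hKB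
    rw [continuousOn_iff_isClosed]
    intro C hC
    have h1 : IsClosed (K ∩ (fun z : ℝ × R4 => f z.2) ⁻¹' C) :=
      hfK.preimage_isClosed_of_isClosed hKc.isClosed hC
    have h2 : IsCompact (K ∩ (fun z : ℝ × R4 => f z.2) ⁻¹' C) :=
      hKc.of_isClosed_subset h1 inter_subset_left
    have h3 := (h2.image (continuous_q m)).isClosed
    refine ⟨_, h3, ?_⟩
    ext P
    constructor
    · rintro ⟨hPC, hPX⟩
      refine ⟨⟨(τ P, x P), ⟨⟨⟨hτ0 P hPX, hτ1 P hPX⟩, ⟨⟨(hx P hPX).1, (hx P hPX).2.1⟩,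
        ⟨(hx P hPX).2.2.1, (hx P hPX).2.2.2⟩, ⟨ha0 P hPX, ha1 P hPX⟩, ⟨hb0 P hPX, hb1 P hPX⟩⟩⟩, hPC⟩,
        (hP P hPX).symm⟩, hPX⟩
    · rintro ⟨⟨z, ⟨hzK, hzC⟩, hz⟩, hPX⟩
      refine ⟨?_, hPX⟩
      show f (x P) ∈ C
      rw [key P hPX z.2 (hKB z hzK) _ (norm_expI z.1) hz.symm]
      exact hzC
  · intro ζ hζ P hPX
    have h1 := hP P hPX
    refine key (act m ζ P) (act_mem m ζ hζ P hPX) (x P) (hx P hPX)
      (ζ * Complex.exp (τ P * Complex.I)) ?_ ?_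
    · rw [norm_mul, hζ, norm_expI, one_mul]
    · rw [← act_act, ← h1]
  · intro y hy
    exact key (pol y) (pol_mem y) y hy 1 norm_one (act_one m _).symm

theorem goalFIN (hD1 : G_D1) (hDES : G_DES) (hISO : G_ISO) : G_FIN := by
  rintro m n e he ⟨N, f, h1, h2, h3, h4⟩
  have hF := fun j => hDES m (En n) (f j) (h1 j).2 (h1 j).1
  choose F hF1 hF2 hF3 using hF
  have hex : ∀ P ∈ X, ∃ y ∈ Box, (∀ j, F j P = f j y) ∧ e P = e (pol y) := by
    intro P hP
    obtain ⟨τ, y, hy, -, -, -, -, -, -, hPe⟩ := hD1 m P hP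
    refine ⟨y, hy, fun j => ?_, ?_⟩
    · rw [hPe, hF2 j _ (norm_expI τ) _ (pol_mem y), hF3 j y hy]
    · rw [hPe, he _ (norm_expI τ) _ (pol_mem y)]
  refine ⟨N, F, hF1, hF2, ?_, ?_, ?_⟩
  · intro j P hP
    obtain ⟨y, hy, hj, -⟩ := hex P hP
    obtain ⟨g1, g2, g3⟩ := h2 j y hy
    have hr := (hISO n (f j y) g1 g2).1
    rw [hj j]
    refine ⟨g1, g2, ?_⟩
    rcases g3 with g3 | ⟨g3, g4⟩
    · left
      rw [g3] at hr
      exact_mod_cast hr.symm
    · right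
      rw [g3] at hr
      exact ⟨by exact_mod_cast hr.symm, g4⟩
  · intro i j hij P hP
    obtain ⟨y, hy, hj, -⟩ := hex P hP
    rw [hj i, hj j]
    exact h3 i j hij y hy
  · intro P hP
    obtain ⟨y, hy, hj, hj2⟩ := hex P hP
    have h5 : ∑ j, f j y = e (pol y) := h4 y hy
    rw [hj2, ← h5]
    exact Finset.sum_congr rfl fun j _ => hj j

end Pool.Agent.Helper57.QS
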