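import Pool.Agent.Helper61.QS.GoalsC

/-!
# Project QS, packet C-HEQ: homotopy is an equivalence relation
-/

set_option autoImplicit false

open Set

namespace Pool.Agent.Helper57.QS

open Pool.Agent.Helper61.QS

theorem goalHEQ (hS : G_SEG) : G_HEQ := by
  intro k S
  refine ⟨?_, ?_, ?_, ?_⟩
  · intro p hp
    refine ⟨fun _ t => p t, ?_, fun s _ t ht => hp.2 t ht, fun t _ => ⟨rfl, rfl⟩, fun s _ => ⟨rfl, rfl⟩⟩
    exact hp.1.comp continuousOn_snd (fun z hz => hz.2)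
  · rintro p q ⟨H, h1, h2, h3, h4⟩
    have e0 : q 0 = p 0 := by rw [← (h3 0 (by simp)).2, (h4 1 (by simp)).1]
    have e1 : q 1 = p 1 := by rw [← (h3 1 (by simp)).2, (h4 1 (by simp)).2]
    have hI : ∀ s ∈ Icc (0 : ℝ) 1, 1 - s ∈ Icc (0 : ℝ) 1 := by
      rintro s ⟨ha, hb⟩
      constructor <;> linarith
    refine ⟨fun s t => H (1 - s) t, ?_, fun s hs t ht => h2 _ (hI s hs) t ht, fun t ht => ?_,
      fun s hs => ?_⟩
    · have hc : ContinuousOn (fun z : ℝ × ℝ => ((1 - z.1, z.2) : ℝ × ℝ))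
          (Icc (0 : ℝ) 1 ×ˢ Icc (0 : ℝ) 1) := by fun_prop
      exact h1.comp hc (fun z hz => ⟨hI _ hz.1, hz.2⟩)
    · have := h3 t ht
      simp only [sub_zero, sub_self]
      exact ⟨this.2, this.1⟩
    · have := h4 _ (hI s hs)
      simp only [e0, e1]
      exact this
  · rintro p q r ⟨H, h1, h2, h3, h4⟩ ⟨K, k1, k2, k3, k4⟩
    have e0 : q 0 = p 0 := by rw [← (h3 0 (by simp)).2, (h4 1 (by simp)).1]
    have e1 : q 1 = p 1 := by rw [← (h3 1 (by simp)).2, (h4 1 (by simp)).2]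
    have m1 : ∀ s ∈ Icc (0 : ℝ) 1, min 1 (2 * s) ∈ Icc (0 : ℝ) 1 := by
      rintro s ⟨ha, hb⟩
      exact ⟨le_min zero_le_one (by linarith), min_le_left _ _⟩
    have m2 : ∀ s ∈ Icc (0 : ℝ) 1, max 0 (2 * s - 1) ∈ Icc (0 : ℝ) 1 := by
      rintro s ⟨ha, hb⟩
      exact ⟨le_max_left _ _, max_le zero_le_one (by linarith)⟩
    refine ⟨fun s t => H (min 1 (2 * s)) t * star (H 1 t) * K (max 0 (2 * s - 1)) t, ?_, ?_, ?_, ?_⟩
    · have c1 : ContinuousOn (fun z : ℝ × ℝ => ((min 1 (2 * z.1), z.2) : ℝ × ℝ))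
          (Icc (0 : ℝ) 1 ×ˢ Icc (0 : ℝ) 1) := by fun_prop
      have c2 : ContinuousOn (fun z : ℝ × ℝ => ((1, z.2) : ℝ × ℝ))
          (Icc (0 : ℝ) 1 ×ˢ Icc (0 : ℝ) 1) := by fun_prop
      have c3 : ContinuousOn (fun z : ℝ × ℝ => ((max 0 (2 * z.1 - 1), z.2) : ℝ × ℝ))
          (Icc (0 : ℝ) 1 ×ˢ Icc (0 : ℝ) 1) := by fun_prop
      have d1 := h1.comp c1 (fun z hz => ⟨m1 _ hz.1, hz.2⟩)
      have d2 := h1.comp c2 (fun z hz => ⟨by simp, hz.2⟩)
      have d3 := k1.comp c3 (fun z hz => ⟨m2 _ hz.1, hz.2⟩)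
      exact (d1.mul d2.star).mul d3
    · intro s hs t ht
      exact UC.mul_mem (UC.mul_mem (h2 _ (m1 s hs) t ht) (UC.star_mem (h2 1 (by simp) t ht)))
        (k2 _ (m2 s hs) t ht)
    · intro t ht
      have hu := h2 1 (by simp) t ht
      have f1 := h3 t ht
      have f2 := k3 t ht
      have g0 : min (1 : ℝ) (2 * 0) = 0 := by norm_num
      have g1 : max (0 : ℝ) (2 * 0 - 1) = 0 := by norm_num
      have g2 : min (1 : ℝ) (2 * 1) = 1 := by norm_num
      have g3 : max (0 : ℝ) (2 * 1 - 1) = 1 := by norm_num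
      constructor
      · show H (min 1 (2 * 0)) t * star (H 1 t) * K (max 0 (2 * 0 - 1)) t = p t
        rw [g0, g1, f1.1, f2.1, ← f1.2, mul_assoc, UC.star_mul hu, mul_one]
      · show H (min 1 (2 * 1)) t * star (H 1 t) * K (max 0 (2 * 1 - 1)) t = r t
        rw [g2, g3, UC.mul_star hu, one_mul, f2.2]
    · intro s hs
      have f1 := h4 _ (m1 s hs)
      have f2 := h4 1 (by simp)
      have f3 := k4 _ (m2 s hs)
      have hu0 := h2 1 (by simp) 0 (by simp)
      have hu1 := h2 1 (by simp) 1 (by simp)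
      rw [f2.1] at hu0
      rw [f2.2] at hu1
      constructor
      · show H (min 1 (2 * s)) 0 * star (H 1 0) * K (max 0 (2 * s - 1)) 0 = p 0
        rw [f1.1, f2.1, f3.1, e0, mul_assoc, UC.star_mul hu0, mul_one]
      · show H (min 1 (2 * s)) 1 * star (H 1 1) * K (max 0 (2 * s - 1)) 1 = p 1
        rw [f1.2, f2.2, f3.2, e1, mul_assoc, UC.star_mul hu1, mul_one]
  · intro p q hp hq e0 e1 hlt
    obtain ⟨seg, s1, s2, s3⟩ := hS k
    have hau : ∀ t ∈ Icc (0 : ℝ) 1, star (p t) * q t ∈ UC S := fun t ht =>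
      UC.mul_mem (UC.star_mem (hp.2 t ht)) (hq.2 t ht)
    have han : ∀ t ∈ Icc (0 : ℝ) 1, ‖star (p t) * q t - 1‖ < 2 := by
      intro t ht
      have h1 : star (p t) * q t - 1 = star (p t) * (q t - p t) := by
        rw [mul_sub, UC.star_mul (hp.2 t ht)]
      have h2 := UC.norm_le (UC.star_mem (hp.2 t ht))
      rw [h1]
      calc _ ≤ ‖star (p t)‖ * ‖q t - p t‖ := norm_mul_le _ _
        _ ≤ 1 * ‖q t - p t‖ := by gcongr
        _ = ‖p t - q t‖ := by rw [one_mul, norm_sub_rev]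
        _ < 2 := hlt t ht
    have hone : ∀ s : ℝ, seg 1 s = 1 := by
      intro s
      have h1 := s3 1 (Submonoid.one_mem _) (by rw [sub_self, norm_zero]; norm_num) s 0
      rw [sub_self, norm_zero, mul_zero] at h1
      have h2 := (s1 1 (Submonoid.one_mem _) (by rw [sub_self, norm_zero]; norm_num)).1
      rw [h2] at h1
      exact sub_eq_zero.1 (norm_le_zero_iff.1 h1)
    refine ⟨fun s t => p t * seg (star (p t) * q t) s, ?_, ?_, ?_, ?_⟩
    · have c1 : ContinuousOn (fun z : ℝ × ℝ => p z.2) (Icc (0 : ℝ) 1 ×ˢ Icc (0 : ℝ) 1) :=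
        hp.1.comp continuousOn_snd (fun z hz => hz.2)
      have c2 : ContinuousOn (fun z : ℝ × ℝ => q z.2) (Icc (0 : ℝ) 1 ×ˢ Icc (0 : ℝ) 1) :=
        hq.1.comp continuousOn_snd (fun z hz => hz.2)
      have c3 : ContinuousOn (fun z : ℝ × ℝ => ((star (p z.2) * q z.2, z.1) : En k × ℝ))
          (Icc (0 : ℝ) 1 ×ˢ Icc (0 : ℝ) 1) := (c1.star.mul c2).prodMk continuousOn_fst
      have c4 := s2.comp c3 (fun z hz => ⟨⟨(hau _ hz.2).1, han _ hz.2⟩, mem_univ _⟩)
      exact c1.mul c4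
    · intro s hs t ht
      refine UC.mul_mem (hp.2 t ht) ⟨(s1 _ (hau t ht).1 (han t ht)).2.2.1 s, fun x hx => ?_⟩
      exact (s1 _ (hau t ht).1 (han t ht)).2.2.2 s x ((hau t ht).2 x hx)
    · intro t ht
      have h1 := s1 _ (hau t ht).1 (han t ht)
      constructor
      · show p t * seg (star (p t) * q t) 0 = p t
        rw [h1.1, mul_one]
      · show p t * seg (star (p t) * q t) 1 = q t
        rw [h1.2.1, ← mul_assoc, UC.mul_star (hp.2 t ht), one_mul]
    · intro s hs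
      constructor
      · show p 0 * seg (star (p 0) * q 0) s = p 0
        rw [← e0, UC.star_mul (hp.2 0 (by simp)), hone, mul_one]
      · show p 1 * seg (star (p 1) * q 1) s = p 1
        rw [← e1, UC.star_mul (hp.2 1 (by simp)), hone, mul_one]

end Pool.Agent.Helper57.QS
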