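import Pool.Agent.Helper61.QS.GoalsC

/-!
# Project QS, packet C-PGA: broken paths
-/

set_option autoImplicit false

open Set

namespace Pool.Agent.Helper57.QS

open Pool.Agent.Helper61.QS

theorem cont_ofFn {k : ℕ} {X : Type*} [TopologicalSpace X] (s : Set X) :
    ∀ (N : ℕ) (f : Fin N → X → En k), (∀ i, ContinuousOn (f i) s) →
      ContinuousOn (fun x => (List.ofFn fun i => f i x).prod) s := by
  intro N
  induction N with
  | zero =>
    intro f _
    simp only [List.ofFn_zero, List.prod_nil]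
    exact continuousOn_const
  | succ N ih =>
    intro f hf
    simp only [List.ofFn_succ, List.prod_cons]
    exact (hf 0).mul (ih (fun i => f i.succ) fun i => hf i.succ)

theorem UC_ofFn {k : ℕ} {S : Set (En k)} :
    ∀ (N : ℕ) (f : Fin N → En k), (∀ i, f i ∈ UC S) → (List.ofFn f).prod ∈ UC S := by
  intro N
  induction N with
  | zero =>
    intro f _
    simp only [List.ofFn_zero, List.prod_nil]
    exact UC.one_mem
  | succ N ih =>
    intro f hf
    simp only [List.ofFn_succ, List.prod_cons]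
    exact UC.mul_mem (hf 0) (ih (fun i => f i.succ) fun i => hf i.succ)

theorem lip_ofFn {k : ℕ} (S : Set (En k)) (c : ℝ) :
    ∀ (N : ℕ) (f g : Fin N → En k), (∀ i, f i ∈ UC S) → (∀ i, g i ∈ UC S) →
      (∀ i, ‖f i - g i‖ ≤ c) → ‖(List.ofFn f).prod - (List.ofFn g).prod‖ ≤ N * c := by
  intro N
  induction N with
  | zero =>
    intro f g _ _ _
    simp
  | succ N ih =>
    intro f g hf hg hc
    simp only [List.ofFn_succ, List.prod_cons]
    have h1 := ih (fun i => f i.succ) (fun i => g i.succ) (fun i => hf i.succ) (fun i => hg i.succ)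
      (fun i => hc i.succ)
    have h2 := UC.norm_le (hf 0)
    have h3 := UC.norm_le (UC_ofFn N (fun i => g i.succ) fun i => hg i.succ)
    have h4 := hc 0
    have h0 : 0 ≤ c := (norm_nonneg _).trans h4
    have e : f 0 * (List.ofFn fun i => f i.succ).prod - g 0 * (List.ofFn fun i => g i.succ).prod =
        f 0 * ((List.ofFn fun i => f i.succ).prod - (List.ofFn fun i => g i.succ).prod) +
          (f 0 - g 0) * (List.ofFn fun i => g i.succ).prod := by
      rw [mul_sub, sub_mul]
      abel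
    rw [e]
    calc _ ≤ ‖f 0 * ((List.ofFn fun i => f i.succ).prod - (List.ofFn fun i => g i.succ).prod)‖ +
          ‖(f 0 - g 0) * (List.ofFn fun i => g i.succ).prod‖ := norm_add_le _ _
      _ ≤ ‖f 0‖ * ‖(List.ofFn fun i => f i.succ).prod - (List.ofFn fun i => g i.succ).prod‖ +
          ‖f 0 - g 0‖ * ‖(List.ofFn fun i => g i.succ).prod‖ := by
          gcongr
          · exact norm_mul_le _ _
          · exact norm_mul_le _ _
      _ ≤ 1 * (N * c) + c * 1 := by gcongr
      _ = ((N + 1 : ℕ) : ℝ) * c := by push_cast; ring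

theorem clamp_abs (x y : ℝ) : |max 0 (min 1 x) - max 0 (min 1 y)| ≤ |x - y| := by
  have h1 : |max 0 (min 1 x) - max 0 (min 1 y)| ≤ |min 1 x - min 1 y| := by
    have := abs_max_sub_max_le_abs (min 1 x) (min 1 y) 0
    rwa [max_comm, max_comm (min 1 y)] at this
  have h2 : |min 1 x - min 1 y| ≤ |x - y| := by
    have := abs_min_sub_min_le_max 1 x 1 y
    rwa [sub_self, abs_zero, max_eq_right (abs_nonneg _)] at this
  exact h1.trans h2

theorem KK_seg {k : ℕ} {S : Set (En k)} {seg : En k → ℝ → En k} (hseg : IsSeg seg) {a : En k}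
    (ha : a ∈ UC S) (h1 : ‖a - 1‖ ≤ 1) (τ : ℝ) : seg a τ ∈ UC S :=
  ⟨(hseg.1 a ha.1 (by linarith)).2.2.1 τ,
    fun x hx => (hseg.1 a ha.1 (by linarith)).2.2.2 τ x (ha.2 x hx)⟩

theorem goalPGA : G_PGA := by
  intro k S seg hseg N ϖ
  have hcomp : IsCompact (KK S N ϖ) := by
    have h1 : IsCompact (UC S ∩ {a : En k | ‖a - 1‖ ≤ 1}) :=
      UC.isCompact.inter_right (isClosed_le (by fun_prop) continuous_const)
    have h2 : IsCompact (Set.pi univ fun _ : Fin N => UC S ∩ {a : En k | ‖a - 1‖ ≤ 1}) :=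
      isCompact_univ_pi fun _ => h1
    have h3 : IsClosed {a : Fin N → En k | (List.ofFn a).prod = ϖ} := by
      have hc : Continuous fun a : Fin N → En k => (List.ofFn a).prod := by
        rw [← continuousOn_univ]
        exact cont_ofFn univ N (fun i (a : Fin N → En k) => a i) fun i => (continuous_apply i).continuousOn
      exact isClosed_eq hc continuous_const
    have h4 : KK S N ϖ = (Set.pi univ fun _ : Fin N => UC S ∩ {a : En k | ‖a - 1‖ ≤ 1}) ∩
        {a : Fin N → En k | (List.ofFn a).prod = ϖ} := by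
      ext a
      constructor
      · rintro ⟨ha, hb⟩
        exact ⟨fun i _ => ha i, hb⟩
      · rintro ⟨ha, hb⟩
        exact ⟨fun i => ha i (mem_univ i), hb⟩
    rw [h4]
    exact h2.inter_right h3
  have hfac : ∀ i : Fin N, ContinuousOn
      (fun z : (Fin N → En k) × ℝ => seg (z.1 i) (max 0 (min 1 (N * z.2 - i))))
      (KK S N ϖ ×ˢ univ) := by
    intro i
    have c1 : ContinuousOn (fun z : (Fin N → En k) × ℝ =>
        ((z.1 i, max 0 (min 1 (N * z.2 - i))) : En k × ℝ)) (KK S N ϖ ×ˢ univ) := by fun_prop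
    refine hseg.2.1.comp c1 ?_
    rintro ⟨a, t⟩ ⟨ha, -⟩
    have h1 := ha.1 i
    exact ⟨⟨h1.1.1, lt_of_le_of_lt h1.2 (by norm_num)⟩, mem_univ _⟩
  have hcont : ContinuousOn (fun z : (Fin N → En k) × ℝ => poly seg z.1 z.2) (KK S N ϖ ×ˢ univ) :=
    cont_ofFn (KK S N ϖ ×ˢ univ) N
      (fun i (z : (Fin N → En k) × ℝ) => seg (z.1 i) (max 0 (min 1 (N * z.2 - i)))) hfac
  refine ⟨hcomp, ?_, ?_⟩
  · intro a ha
    refine ⟨⟨?_, ?_⟩, ?_, ?_, ?_⟩
    · have c1 : ContinuousOn (fun t : ℝ => ((a, t) : (Fin N → En k) × ℝ)) (Icc 0 1) := by fun_prop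
      exact hcont.comp c1 fun t _ => ⟨ha, mem_univ _⟩
    · intro t _
      exact UC_ofFn N _ fun i => KK_seg hseg (ha.1 i).1 (ha.1 i).2 _
    · have h1 : (fun i : Fin N => seg (a i) (max 0 (min 1 (N * 0 - i)))) = fun _ : Fin N => (1 : En k) := by
        funext i
        have h2 : max (0 : ℝ) (min 1 (N * 0 - i)) = 0 := by
          apply max_eq_left
          refine (min_le_right _ _).trans ?_
          have : (0 : ℝ) ≤ (i : ℕ) := Nat.cast_nonneg _
          linarith
        rw [h2]
        exact (hseg.1 (a i) (ha.1 i).1.1 (lt_of_le_of_lt (ha.1 i).2 (by norm_num))).1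
      rw [poly, h1, List.ofFn_const, List.prod_replicate, one_pow]
    · have h1 : (fun i : Fin N => seg (a i) (max 0 (min 1 (N * 1 - i)))) = a := by
        funext i
        have h2 : max (0 : ℝ) (min 1 (N * 1 - i)) = 1 := by
          have h3 : (1 : ℝ) ≤ N * 1 - (i : ℕ) := by
            have h4 : (i : ℕ) + 1 ≤ N := i.2
            have h5 : ((i : ℕ) : ℝ) + 1 ≤ N := by exact_mod_cast h4
            linarith
          rw [min_eq_left h3]
          exact max_eq_right zero_le_one
        rw [h2]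
        exact (hseg.1 (a i) (ha.1 i).1.1 (lt_of_le_of_lt (ha.1 i).2 (by norm_num))).2.1
      rw [poly, h1]
      exact ha.2
    · refine ⟨N * (2 * N), fun t _ t' _ => ?_⟩
      have h1 := lip_ofFn S (2 * N * |t - t'|) N
        (fun i : Fin N => seg (a i) (max 0 (min 1 (N * t - i))))
        (fun i : Fin N => seg (a i) (max 0 (min 1 (N * t' - i))))
        (fun i => KK_seg hseg (ha.1 i).1 (ha.1 i).2 _) (fun i => KK_seg hseg (ha.1 i).1 (ha.1 i).2 _)
        (fun i => ?_)
      · rw [poly, poly]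
        calc _ ≤ (N : ℝ) * (2 * N * |t - t'|) := h1
          _ = _ := by ring
      · have h2 := hseg.2.2 (a i) (ha.1 i).1.1 (ha.1 i).2 (max 0 (min 1 (N * t - i)))
          (max 0 (min 1 (N * t' - i)))
        have h3 := clamp_abs (N * t - i) (N * t' - i)
        have h4 : |(N : ℝ) * t - i - (N * t' - i)| = N * |t - t'| := by
          have : (N : ℝ) * t - i - (N * t' - i) = N * (t - t') := by ring
          rw [this, abs_mul, Nat.abs_cast]
        rw [h4] at h3
        calc _ ≤ 2 * |max 0 (min 1 ((N : ℝ) * t - i)) - max 0 (min 1 (N * t' - i))| * ‖a i - 1‖ := h2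
          _ ≤ 2 * (N * |t - t'|) * 1 := by
            gcongr
            exact (ha.1 i).2
          _ = _ := by ring
  · have hK : IsCompact (KK S N ϖ ×ˢ Icc (0 : ℝ) 1) := hcomp.prod isCompact_Icc
    have hu := hK.uniformContinuousOn_of_continuous
      (hcont.mono (prod_mono_right (subset_univ (Icc (0 : ℝ) 1))))
    rw [Metric.uniformContinuousOn_iff] at hu
    obtain ⟨δ, hδ, h⟩ := hu 2 (by norm_num)
    refine ⟨δ, hδ, fun a ha a' ha' hd t ht => ?_⟩
    have h1 := h (a, t) ⟨ha, ht⟩ (a', t) ⟨ha', ht⟩ ?_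
    · rwa [dist_eq_norm] at h1
    · rw [Prod.dist_eq]
      simp only [dist_self]
      rw [max_eq_left dist_nonneg, dist_pi_lt_iff hδ]
      intro i
      rw [dist_eq_norm]
      exact hd i

end Pool.Agent.Helper57.QS
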