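import Pool.Agent.Helper61.QS.GoalsC

/-!
# Project QS, packet C-PGB: a path is close to a broken path
-/

set_option autoImplicit false

open Set

namespace Pool.Agent.Helper57.QS

open Pool.Agent.Helper61.QS

theorem ofFn_range {α : Type*} (N : ℕ) (c : ℕ → α) :
    (List.ofFn fun i : Fin N => c i) = (List.range N).map c := by
  rw [List.ofFn_eq_map, ← List.map_coe_finRange_eq_range, List.map_map]
  rfl

/-- partial products -/
noncomputable def pp {k : ℕ} (c : ℕ → En k) (n : ℕ) : En k := ((List.range n).map c).prod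

theorem pp_zero {k : ℕ} (c : ℕ → En k) : pp c 0 = 1 := by simp [pp]

theorem pp_succ {k : ℕ} (c : ℕ → En k) (n : ℕ) : pp c (n + 1) = pp c n * c n := by
  simp [pp, List.range_succ]

theorem pp_congr {k : ℕ} (c d : ℕ → En k) : ∀ n, (∀ j < n, c j = d j) → pp c n = pp d n := by
  intro n
  induction n with
  | zero => intro _; rw [pp_zero, pp_zero]
  | succ n ih =>
    intro h
    rw [pp_succ, pp_succ, ih fun j hj => h j (by omega), h n (by omega)]

theorem pp_tail {k : ℕ} (c : ℕ → En k) (m : ℕ) : ∀ n, m ≤ n → (∀ j, m ≤ j → j < n → c j = 1) →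
    pp c n = pp c m := by
  intro n
  induction n with
  | zero => intro h _; rw [Nat.le_zero.1 h]
  | succ n ih =>
    intro h hc
    rcases Nat.lt_or_ge n m with h1 | h1
    · have : m = n + 1 := by omega
      rw [this]
    · rw [pp_succ, hc n h1 (by omega), mul_one]
      exact ih h1 fun j hj hj2 => hc j hj (by omega)

theorem goalPGB : G_PGB := by
  intro k S seg hseg p hp h0 N hN hU
  have hNr : (0 : ℝ) < N := by exact_mod_cast hN
  have hmem : ∀ j : ℕ, j ≤ N → (j : ℝ) / N ∈ Icc (0 : ℝ) 1 := by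
    intro j hj
    refine ⟨by positivity, ?_⟩
    rw [div_le_one hNr]
    exact_mod_cast hj
  have hmem' : ∀ j : ℕ, j < N → ((j : ℝ) + 1) / N ∈ Icc (0 : ℝ) 1 := by
    intro j hj
    have := hmem (j + 1) hj
    push_cast at this
    exact this
  set A : ℕ → En k := fun j => star (p (j / N)) * p (((j : ℝ) + 1) / N) with hA
  have hAU : ∀ j < N, A j ∈ UC S := fun j hj =>
    UC.mul_mem (UC.star_mem (hp.2 _ (hmem j hj.le))) (hp.2 _ (hmem' j hj))
  have hAn : ∀ j < N, ‖A j - 1‖ ≤ 1 / 4 := by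
    intro j hj
    have h1 : A j - 1 = star (p (j / N)) * (p (((j : ℝ) + 1) / N) - p (j / N)) := by
      rw [mul_sub, UC.star_mul (hp.2 _ (hmem j hj.le))]
    have h2 := UC.norm_le (UC.star_mem (hp.2 _ (hmem j hj.le)))
    have h3 := hU _ (hmem' j hj) _ (hmem j hj.le) (by
      have : ((j : ℝ) + 1) / N - j / N = 1 / N := by ring
      rw [this, abs_of_pos (by positivity)])
    rw [h1]
    calc _ ≤ ‖star (p (j / N))‖ * ‖p (((j : ℝ) + 1) / N) - p (j / N)‖ := norm_mul_le _ _
      _ ≤ 1 * (1 / 4) := by gcongr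
      _ = _ := one_mul _
  have htel : ∀ m ≤ N, pp A m = p (m / N) := by
    intro m
    induction m with
    | zero => intro _; rw [pp_zero, Nat.cast_zero, zero_div, h0]
    | succ m ih =>
      intro hm
      rw [pp_succ, ih (by omega), hA]
      simp only
      rw [← mul_assoc, UC.mul_star (hp.2 _ (hmem m (by omega))), one_mul]
      push_cast
      rfl
  have hkk : (fun i : Fin N => star (p (i / N)) * p ((i + 1) / N)) ∈ KK S N (p 1) := by
    refine ⟨fun i => ⟨hAU i i.2, (hAn i i.2).trans (by norm_num)⟩, ?_⟩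
    have h1 : (List.ofFn fun i : Fin N => star (p (i / N)) * p ((i + 1) / N)).prod = pp A N := by
      rw [pp, ← ofFn_range N A]
    rw [h1, htel N le_rfl, div_self hNr.ne']
  refine ⟨hkk, fun t ht => ?_⟩
  set C : ℕ → En k := fun j => seg (A j) (max 0 (min 1 (N * t - j))) with hC
  have hpoly : poly seg (fun i : Fin N => star (p (i / N)) * p ((i + 1) / N)) t = pp C N := by
    rw [pp, ← ofFn_range N C]
    rfl
  rw [hpoly]
  have hs1 : ∀ j < N, seg (A j) 0 = 1 ∧ seg (A j) 1 = A j := by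
    intro j hj
    have := hseg.1 (A j) (hAU j hj).1 (lt_of_le_of_lt (hAn j hj) (by norm_num))
    exact ⟨this.1, this.2.1⟩
  -- the index
  obtain ⟨i, hiN, hi1, hi2⟩ : ∃ i : ℕ, i < N ∧ (i : ℝ) ≤ N * t ∧ N * t ≤ i + 1 := by
    have hnt : 0 ≤ (N : ℝ) * t := mul_nonneg hNr.le ht.1
    rcases lt_or_ge (⌊(N : ℝ) * t⌋₊) N with h | h
    · exact ⟨⌊(N : ℝ) * t⌋₊, h, Nat.floor_le hnt, (Nat.lt_floor_add_one _).le⟩
    · have h1 : (N : ℝ) ≤ N * t := le_trans (by exact_mod_cast h) (Nat.floor_le hnt)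
      have h2 : (N : ℝ) * t ≤ N := by nlinarith [ht.2]
      refine ⟨N - 1, by omega, ?_, ?_⟩
      · have : ((N - 1 : ℕ) : ℝ) ≤ N := by exact_mod_cast Nat.sub_le _ _
        linarith
      · have : ((N - 1 : ℕ) : ℝ) + 1 = N := by
          rw [Nat.cast_sub (by omega)]
          simp
        rw [this]
        exact h2
  have c1 : ∀ j < i, C j = A j := by
    intro j hj
    have h1 : max (0 : ℝ) (min 1 (N * t - j)) = 1 := by
      have h2 : (1 : ℝ) ≤ N * t - j := by
        have h3 : (j : ℝ) + 1 ≤ i := by exact_mod_cast hj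
        linarith
      rw [min_eq_left h2, max_eq_right zero_le_one]
    simp only [hC]
    rw [h1]
    exact (hs1 j (by omega)).2
  have c2 : ∀ j, i + 1 ≤ j → j < N → C j = 1 := by
    intro j hj hj2
    have h1 : max (0 : ℝ) (min 1 (N * t - j)) = 0 := by
      have h3 : (i : ℝ) + 1 ≤ j := by exact_mod_cast hj
      exact max_eq_left ((min_le_right _ _).trans (by linarith))
    simp only [hC]
    rw [h1]
    exact (hs1 j hj2).1
  have c3 : pp C N = p (i / N) * C i := by
    rw [pp_tail C (i + 1) N (by omega) c2, pp_succ, pp_congr C A i c1, htel i hiN.le]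
  have c4 : ‖C i - 1‖ ≤ 1 / 2 := by
    have h1 := hseg.2.2 (A i) (hAU i hiN).1 ((hAn i hiN).trans (by norm_num))
      (max 0 (min 1 (N * t - i))) 0
    rw [(hs1 i hiN).1, sub_zero, abs_of_nonneg (le_max_left _ _)] at h1
    have h2 : max (0 : ℝ) (min 1 (N * t - i)) ≤ 1 := max_le zero_le_one (min_le_left _ _)
    have h3 := hAn i hiN
    calc ‖C i - 1‖ ≤ 2 * max 0 (min 1 (N * t - i)) * ‖A i - 1‖ := h1
      _ ≤ 2 * 1 * (1 / 4) := by gcongr
      _ = 1 / 2 := by norm_num
  have c5 : ‖p (i / N) - p t‖ ≤ 1 / 4 := by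
    apply hU _ (hmem i hiN.le) t ht
    have h1 : (i : ℝ) / N - t = -((N * t - i) / N) := by
      field_simp
      ring
    rw [h1, abs_neg, abs_of_nonneg (div_nonneg (by linarith) hNr.le)]
    gcongr
    linarith
  have c6 := UC.norm_le (hp.2 _ (hmem i hiN.le))
  rw [c3]
  have e : p (i / N) * C i - p t = p (i / N) * (C i - 1) + (p (i / N) - p t) := by
    rw [mul_sub, mul_one]
    abel
  rw [e]
  calc _ ≤ ‖p (i / N) * (C i - 1)‖ + ‖p (i / N) - p t‖ := norm_add_le _ _
    _ ≤ ‖p (i / N)‖ * ‖C i - 1‖ + 1 / 4 := by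
        gcongr
        exact norm_mul_le _ _
    _ ≤ 1 * (1 / 2) + 1 / 4 := by gcongr
    _ < 2 := by norm_num

end Pool.Agent.Helper57.QS
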