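import Pool.Agent.Helper61.QS.GoalsC

/-!
# Project QS, packet C-SEG: Cayley segments
-/

set_option autoImplicit false

open Set

namespace Pool.Agent.Helper57.QS

open Pool.Agent.Helper61.QS

theorem inv_lower {k : ℕ} (T : En k) (c : ℝ) (hc : 0 < c) (h : ∀ x, c * ‖x‖ ≤ ‖T x‖) :
    IsUnit T ∧ T * Ring.inverse T = 1 ∧ Ring.inverse T * T = 1 ∧ ‖Ring.inverse T‖ ≤ c⁻¹ := by
  have hinj : Function.Injective T := by
    intro x y hxy
    have h0 : T (x - y) = 0 := by rw [map_sub, hxy, sub_self]
    have h1 := h (x - y)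
    rw [h0, norm_zero] at h1
    have h2 : ‖x - y‖ ≤ 0 := by
      by_contra hh
      push Not at hh
      nlinarith [mul_pos hc hh]
    exact sub_eq_zero.1 (norm_le_zero_iff.1 h2)
  have hsurj : Function.Surjective T :=
    (LinearMap.injective_iff_surjective (f := (T : V k →ₗ[ℝ] V k))).1 hinj
  have hu : IsUnit T := ContinuousLinearMap.isUnit_iff_bijective.2 ⟨hinj, hsurj⟩
  have h1 := Ring.mul_inverse_cancel T hu
  have h2 := Ring.inverse_mul_cancel T hu
  refine ⟨hu, h1, h2, ContinuousLinearMap.opNorm_le_bound _ (by positivity) fun y => ?_⟩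
  have h3 := h (Ring.inverse T y)
  have h4 : T (Ring.inverse T y) = y := by
    have h5 := congrArg (fun Z : En k => Z y) h1
    simpa [mul_apply_eq_comp] using h5
  rw [h4] at h3
  rw [inv_mul_eq_div, le_div_iff₀ hc]
  linarith

theorem comm_inv {k : ℕ} {x u v : En k} (h1 : u * v = 1) (h2 : v * u = 1) (h : x * u = u * x) :
    x * v = v * x := by
  calc x * v = v * u * x * v := by rw [h2, one_mul]
    _ = v * (u * x) * v := by noncomm_ring
    _ = v * (x * u) * v := by rw [h]
    _ = v * x * (u * v) := by noncomm_ring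
    _ = v * x := by rw [h1, mul_one]

theorem lower_add_one {k : ℕ} (a : En k) (x : V k) : (2 - ‖a - 1‖) * ‖x‖ ≤ ‖(a + 1) x‖ := by
  have h1 : (a + 1) x = (2 : ℝ) • x + (a - 1) x := by
    simp only [add_apply, sub_apply, one_apply_eq_self, two_smul]
    abel
  have h2 : ‖(2 : ℝ) • x‖ = 2 * ‖x‖ := by rw [norm_smul]; norm_num
  have h3 : ‖(2 : ℝ) • x‖ - ‖(a - 1) x‖ ≤ ‖(2 : ℝ) • x + (a - 1) x‖ := by
    have := norm_sub_norm_le ((2 : ℝ) • x) (-((a - 1) x))
    rw [norm_neg, sub_neg_eq_add] at this
    exact this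
  have h4 := (a - 1).le_opNorm x
  rw [h1]
  nlinarith

theorem lower_skew {k : ℕ} (C : En k) (hC : star C = -C) (τ : ℝ) (x : V k) :
    1 * ‖x‖ ≤ ‖(1 - τ • C) x‖ := by
  have h0 : inner ℝ x (C x) = 0 := by
    have h1 : inner ℝ x (C x) = inner ℝ ((star C) x) x := by
      rw [ContinuousLinearMap.star_eq_adjoint, ContinuousLinearMap.adjoint_inner_left]
    rw [hC, neg_apply, inner_neg_left] at h1
    have h2 := real_inner_comm x (C x)
    linarith
  have h1 : (1 - τ • C) x = x - τ • C x := by
    simp only [sub_apply, one_apply_eq_self, smul_apply]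
  have h2 : ‖x - τ • C x‖ ^ 2 = ‖x‖ ^ 2 + τ ^ 2 * ‖C x‖ ^ 2 := by
    rw [norm_sub_sq_real, inner_smul_right, h0, norm_smul, Real.norm_eq_abs, mul_pow, sq_abs]
    ring
  rw [h1, one_mul]
  have h3 : ‖x‖ ^ 2 ≤ ‖x - τ • C x‖ ^ 2 := by
    rw [h2]
    have : 0 ≤ τ ^ 2 * ‖C x‖ ^ 2 := by positivity
    linarith
  exact (sq_le_sq₀ (norm_nonneg _) (norm_nonneg _)).1 h3

/-- Cayley transform -/
noncomputable def cay {k : ℕ} (a : En k) : En k := (a - 1) * Ring.inverse (a + 1)

/-- Cayley segment -/
noncomputable def sg {k : ℕ} (a : En k) (τ : ℝ) : En k :=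
  (1 + τ • cay a) * Ring.inverse (1 - τ • cay a)

theorem cay_skew {k : ℕ} (a : En k) (ha : a ∈ unitary (En k)) (h : ‖a - 1‖ < 2) :
    star (cay a) = -cay a := by
  obtain ⟨hu, h1, h2, -⟩ := inv_lower (a + 1) (2 - ‖a - 1‖) (by linarith) (lower_add_one a)
  have ha1 : star a * a = 1 := (Unitary.mem_iff.1 ha).1
  set b := Ring.inverse (a + 1) with hb
  have h3 : star b * (star a + 1) = 1 := by
    have := congrArg star h1
    rwa [star_mul, star_add, star_one] at this
  have h4 : star (cay a) = star b * (star a - 1) := by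
    rw [cay, ← hb, star_mul, star_sub, star_one]
  have h5 : star (cay a) * (a + 1) = 1 - a := by
    have e1 : (star a - 1) * (a + 1) = (star a + 1) * (1 - a) := by
      simp only [sub_mul, add_mul, mul_add, mul_sub, ha1, mul_one, one_mul]
      abel
    rw [h4, mul_assoc, e1, ← mul_assoc, h3, one_mul]
  have h6 : -cay a * (a + 1) = 1 - a := by
    rw [cay, ← hb, neg_mul, mul_assoc, h2, mul_one]
    abel
  calc star (cay a) = star (cay a) * ((a + 1) * b) := by rw [h1, mul_one]
    _ = (1 - a) * b := by rw [← mul_assoc, h5]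
    _ = -cay a * ((a + 1) * b) := by rw [← mul_assoc, h6]
    _ = -cay a := by rw [h1, mul_one]

theorem goalSEG : G_SEG := by
  intro k
  refine ⟨sg, ?_, ?_, ?_⟩
  · intro a ha h2
    obtain ⟨hu, h1, h1', -⟩ := inv_lower (a + 1) (2 - ‖a - 1‖) (by linarith) (lower_add_one a)
    have hsk := cay_skew a ha h2
    have hD := fun τ : ℝ => inv_lower (1 - τ • cay a) 1 one_pos (lower_skew (cay a) hsk τ)
    have hc1 : (1 : En k) - cay a = 2 * Ring.inverse (a + 1) := by
      have e : (1 : En k) = (a + 1) * Ring.inverse (a + 1) := h1.symm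
      calc (1 : En k) - cay a = (a + 1) * Ring.inverse (a + 1) - (a - 1) * Ring.inverse (a + 1) := by
            rw [← e, cay]
        _ = 2 * Ring.inverse (a + 1) := by noncomm_ring
    have hc2 : (1 : En k) + cay a = a * (2 * Ring.inverse (a + 1)) := by
      have e : (1 : En k) = (a + 1) * Ring.inverse (a + 1) := h1.symm
      calc (1 : En k) + cay a = (a + 1) * Ring.inverse (a + 1) + (a - 1) * Ring.inverse (a + 1) := by
            rw [← e, cay]
        _ = a * (2 * Ring.inverse (a + 1)) := by noncomm_ring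
    refine ⟨?_, ?_, ?_, ?_⟩
    · rw [sg, zero_smul, add_zero, sub_zero, Ring.inverse_one, mul_one]
    · obtain ⟨-, e1, -, -⟩ := hD 1
      rw [one_smul] at e1
      rw [sg, one_smul, hc2, ← hc1, mul_assoc, e1, mul_one]
    · intro τ
      obtain ⟨-, e1, e2, -⟩ := hD τ
      set d := Ring.inverse (1 - τ • cay a) with hd
      have s1 : star (1 - τ • cay a) = 1 + τ • cay a := by
        rw [star_sub, star_one, star_smul, hsk, star_trivial, smul_neg, sub_neg_eq_add]
      have s2 : star (1 + τ • cay a) = 1 - τ • cay a := by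
        rw [star_add, star_one, star_smul, hsk, star_trivial, smul_neg, ← sub_eq_add_neg]
      have s3 : star d * (1 + τ • cay a) = 1 := by
        have := congrArg star e1
        rwa [star_mul, s1, star_one] at this
      have s4 : (1 + τ • cay a) * star d = 1 := by
        have := congrArg star e2
        rwa [star_mul, s1, star_one] at this
      have hcm : (1 - τ • cay a) * (1 + τ • cay a) = (1 + τ • cay a) * (1 - τ • cay a) := by
        simp only [sub_mul, add_mul, mul_add, mul_sub, mul_one, one_mul]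
        abel
      have hcd : (1 + τ • cay a) * d = d * (1 + τ • cay a) := comm_inv e1 e2 hcm.symm
      rw [Unitary.mem_iff]
      have hs : sg a τ = (1 + τ • cay a) * d := rfl
      rw [hs, star_mul, s2]
      constructor
      · calc star d * (1 - τ • cay a) * ((1 + τ • cay a) * d)
            = star d * ((1 - τ • cay a) * (1 + τ • cay a)) * d := by
              simp only [mul_assoc]
          _ = star d * ((1 + τ • cay a) * (1 - τ • cay a)) * d := by rw [hcm]
          _ = (star d * (1 + τ • cay a)) * ((1 - τ • cay a) * d) := by simp only [mul_assoc]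
          _ = 1 := by rw [s3, e1, one_mul]
      · rw [hcd]
        calc d * (1 + τ • cay a) * (star d * (1 - τ • cay a))
            = d * ((1 + τ • cay a) * star d) * (1 - τ • cay a) := by simp only [mul_assoc]
          _ = 1 := by rw [s4, mul_one, e2]
    · intro τ x hx
      obtain ⟨-, e1, e2, -⟩ := hD τ
      have c1 : x * (a + 1) = (a + 1) * x := by rw [mul_add, add_mul, hx, mul_one, one_mul]
      have c2 : x * (a - 1) = (a - 1) * x := by rw [mul_sub, sub_mul, hx, mul_one, one_mul]
      have c3 : x * Ring.inverse (a + 1) = Ring.inverse (a + 1) * x := comm_inv h1 h1' c1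
      have c4 : x * cay a = cay a * x := by
        rw [cay, ← mul_assoc, c2, mul_assoc, c3, mul_assoc]
      have c5 : x * (1 - τ • cay a) = (1 - τ • cay a) * x := by
        rw [mul_sub, sub_mul, mul_smul_comm, smul_mul_assoc, c4, mul_one, one_mul]
      have c6 : x * (1 + τ • cay a) = (1 + τ • cay a) * x := by
        rw [mul_add, add_mul, mul_smul_comm, smul_mul_assoc, c4, mul_one, one_mul]
      have c7 := comm_inv e1 e2 c5
      rw [sg, ← mul_assoc, c6, mul_assoc, c7, mul_assoc]
  · rintro ⟨a, τ⟩ ⟨⟨ha, h2⟩, -⟩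
    obtain ⟨hu, h1, h1', -⟩ := inv_lower (a + 1) (2 - ‖a - 1‖) (by linarith) (lower_add_one a)
    have hsk := cay_skew a ha h2
    obtain ⟨hv, -, -, -⟩ := inv_lower (1 - τ • cay a) 1 one_pos (lower_skew (cay a) hsk τ)
    apply ContinuousAt.continuousWithinAt
    have i1 : ContinuousAt (Ring.inverse : En k → En k) (a + 1) := by
      obtain ⟨u, hu'⟩ := hu
      rw [← hu']
      exact NormedRing.inverse_continuousAt u
    have i2 : ContinuousAt (Ring.inverse : En k → En k) (1 - τ • cay a) := by
      obtain ⟨u, hu'⟩ := hv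
      rw [← hu']
      exact NormedRing.inverse_continuousAt u
    have hf1 : ContinuousAt (fun q : En k × ℝ => q.1 + 1) (a, τ) := by fun_prop
    have hf2 : ContinuousAt (fun q : En k × ℝ => Ring.inverse (q.1 + 1)) (a, τ) :=
      ContinuousAt.comp (x := (a, τ)) (f := fun q : En k × ℝ => q.1 + 1) i1 hf1
    have hf3 : ContinuousAt (fun q : En k × ℝ => cay q.1) (a, τ) := by
      have : ContinuousAt (fun q : En k × ℝ => q.1 - 1) (a, τ) := by fun_prop
      exact this.mul hf2
    have hf4 : ContinuousAt (fun q : En k × ℝ => q.2 • cay q.1) (a, τ) :=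
      (continuous_snd.continuousAt).smul hf3
    have hf5 : ContinuousAt (fun q : En k × ℝ => 1 - q.2 • cay q.1) (a, τ) :=
      continuousAt_const.sub hf4
    have hf6 : ContinuousAt (fun q : En k × ℝ => Ring.inverse (1 - q.2 • cay q.1)) (a, τ) :=
      ContinuousAt.comp (x := (a, τ)) (f := fun q : En k × ℝ => 1 - q.2 • cay q.1) i2 hf5
    exact (continuousAt_const.add hf4).mul hf6
  · intro a ha h2 τ τ'
    obtain ⟨hu, h1, h1', hn⟩ := inv_lower (a + 1) 1 one_pos
      (fun x => (mul_le_mul_of_nonneg_right (by linarith) (norm_nonneg x)).trans (lower_add_one a x))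
    have hsk := cay_skew a ha (by linarith)
    obtain ⟨-, e1, e2, n1⟩ := inv_lower (1 - τ • cay a) 1 one_pos (lower_skew (cay a) hsk τ)
    obtain ⟨-, f1, f2, n2⟩ := inv_lower (1 - τ' • cay a) 1 one_pos (lower_skew (cay a) hsk τ')
    rw [inv_one] at hn n1 n2
    have key : ∀ (σ : ℝ) (d : En k), (1 - σ • cay a) * d = 1 → (1 + σ • cay a) * d = 2 * d - 1 := by
      intro σ d hd
      have : (1 + σ • cay a) * d = 2 * d - (1 - σ • cay a) * d := by noncomm_ring
      rw [this, hd]
    have e3 : sg a τ - sg a τ' = 2 * (Ring.inverse (1 - τ • cay a) - Ring.inverse (1 - τ' • cay a)) := by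
      rw [sg, sg, key _ _ e1, key _ _ f1]
      noncomm_ring
    have e4 : Ring.inverse (1 - τ • cay a) - Ring.inverse (1 - τ' • cay a) =
        (τ - τ') • (Ring.inverse (1 - τ • cay a) * cay a * Ring.inverse (1 - τ' • cay a)) := by
      calc Ring.inverse (1 - τ • cay a) - Ring.inverse (1 - τ' • cay a)
          = Ring.inverse (1 - τ • cay a) * ((1 - τ' • cay a) * Ring.inverse (1 - τ' • cay a)) -
            (Ring.inverse (1 - τ • cay a) * (1 - τ • cay a)) * Ring.inverse (1 - τ' • cay a) := by
            rw [f1, e2, mul_one, one_mul]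
        _ = Ring.inverse (1 - τ • cay a) * ((1 - τ' • cay a) - (1 - τ • cay a)) *
              Ring.inverse (1 - τ' • cay a) := by noncomm_ring
        _ = Ring.inverse (1 - τ • cay a) * ((τ - τ') • cay a) * Ring.inverse (1 - τ' • cay a) := by
            congr 2
            rw [sub_smul]
            abel
        _ = _ := by rw [mul_smul_comm, smul_mul_assoc]
    have e5 : ‖cay a‖ ≤ ‖a - 1‖ := by
      calc ‖cay a‖ ≤ ‖a - 1‖ * ‖Ring.inverse (a + 1)‖ := norm_mul_le _ _
        _ ≤ ‖a - 1‖ * 1 := by gcongr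
        _ = _ := mul_one _
    have e6 : ‖Ring.inverse (1 - τ • cay a) * cay a * Ring.inverse (1 - τ' • cay a)‖ ≤ ‖a - 1‖ := by
      calc _ ≤ ‖Ring.inverse (1 - τ • cay a) * cay a‖ * ‖Ring.inverse (1 - τ' • cay a)‖ :=
            norm_mul_le _ _
        _ ≤ (‖Ring.inverse (1 - τ • cay a)‖ * ‖cay a‖) * 1 := by
            gcongr
            exact norm_mul_le _ _
        _ ≤ (1 * ‖a - 1‖) * 1 := by gcongr
        _ = _ := by ring
    have e7 : ∀ X : En k, ‖2 * ((τ - τ') • X)‖ = 2 * |τ - τ'| * ‖X‖ := by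
      intro X
      rw [two_mul, ← two_smul ℝ, norm_smul, norm_smul, Real.norm_eq_abs, Real.norm_eq_abs,
        abs_of_pos (by norm_num : (0 : ℝ) < 2)]
      ring
    rw [e3, e4, e7]
    gcongr

end Pool.Agent.Helper57.QS
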